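import Pool.Agent.Lib.MP_7d41f7_al.F.NFin

set_option autoImplicit false

namespace Pool.Agent.Results.MP_7d41f7_al.EverySimple

open Pool.Agent.Lib.MP_7d41f7_al

theorem result (S : Type) [Group S] [Finite S] [IsSimpleGroup S]
    (G : Type) [Group G] [Finite G] (hc : Nat.card G = Nat.card S) (hV : Vo G = Vo S) :
    Nonempty (G ≃* S) ∨ (IsSimpleGroup G ∧ ∃ N r, Spor S N r ∧ Spor G N r) ∨
      (¬ IsMulCommutative S ∧ ¬ OnList5 S) ∨
      ∃ (K : Subgroup G) (_ : K.Normal) (H : Subgroup (G ⧸ K)), H.Normal ∧ IsSimpleGroup H ∧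
        ¬ IsMulCommutative H ∧ Subgroup.centralizer (H : Set (G ⧸ K)) = ⊥ ∧ ¬ OnList5 H :=
  all_simple hc hV

end Pool.Agent.Results.MP_7d41f7_al.EverySimple
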