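import Pool.Agent.Lib.MP_7d41f7_al.L.SMain

set_option autoImplicit false

namespace Pool.Agent.Results.MP_7d41f7_al.PslN

open Pool.Agent.Lib.MP_7d41f7_al

theorem result (n : ℕ) (F : Type) [Field F] [Finite F] (hn : 4 ≤ n) (hq : 256 < Nat.card F ^ n)
    (G : Type) [Group G] [Finite G]
    (hc : Nat.card G = Nat.card (Matrix.ProjectiveSpecialLinearGroup (Fin n) F))
    (hV : Vo G = Vo (Matrix.ProjectiveSpecialLinearGroup (Fin n) F)) :
    Nonempty (G ≃* Matrix.ProjectiveSpecialLinearGroup (Fin n) F) ∨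
      ∃ H : Subgroup G, H.Normal ∧ IsSimpleGroup H ∧ ¬ IsMulCommutative H ∧
        Subgroup.centralizer (H : Set G) = ⊥ ∧ commutator G ≤ H ∧ OffList H :=
  lmain hn hq hc hV

end Pool.Agent.Results.MP_7d41f7_al.PslN
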