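import Pool.Agent.Lib.MP_7d41f7_al.Main

set_option autoImplicit false

namespace Pool.Agent.Results.MP_7d41f7_al.PslTwo

open Pool.Agent.Lib.MP_7d41f7_al

theorem result (F : Type) [Field F] [Finite F] (hodd : Odd (Nat.card F)) (h17 : 17 ≤ Nat.card F)
    (G : Type) [Group G] [Finite G]
    (hc : Nat.card G = Nat.card (Matrix.ProjectiveSpecialLinearGroup (Fin 2) F))
    (hV : Vo G = Vo (Matrix.ProjectiveSpecialLinearGroup (Fin 2) F)) :
    Nonempty (G ≃* Matrix.ProjectiveSpecialLinearGroup (Fin 2) F) :=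
  main hodd h17 hc hV

end Pool.Agent.Results.MP_7d41f7_al.PslTwo
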